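import Mathlib
import Pool.Agent.W602.GT.Der

/-!
# Project NT (helper184): preparations for `StNLG`
-/

set_option autoImplicit false

open Polynomial Pool.Agent.W602.GT

namespace Pool.Agent.Y944.NT

/-- a transcendence basis with the dual vector fields -/
theorem exists_crd {k K : Type} [Field k] [CharZero k] [Field K] [Algebra k K] {n : ℕ}
    (hn : Algebra.trdeg k K = n) : ∃ (y : Fin n → K) (E : Fin n → Derivation k K K),
      IsTranscendenceBasis k y ∧ ∀ i j, E i (y j) = if i = j then 1 else 0 := by
  obtain ⟨ι, z, hz⟩ := exists_isTranscendenceBasis' k K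
  have h1 := hz.cardinalMk_eq_trdeg
  rw [hn] at h1
  have h2 : Cardinal.lift.{0} (Cardinal.mk ι) = Cardinal.lift.{0} (Cardinal.mk (Fin n)) := by
    rw [h1]
    simp
  obtain ⟨e⟩ := Cardinal.lift_mk_eq'.1 h2
  have h3 : IsTranscendenceBasis k (z ∘ e.symm) := (isTranscendenceBasis_equiv e.symm).2 hz
  choose E hE using fun i : Fin n => exists_der _ h3 fun j => if i = j then 1 else 0
  exact ⟨_, E, h3, hE⟩

/-- derivations in coordinates -/
theorem der_expand {k K : Type} [Field k] [CharZero k] [Field K] [Algebra k K] {n : ℕ}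
    {y : Fin n → K} (hy : IsTranscendenceBasis k y) {E : Fin n → Derivation k K K}
    (hE : ∀ i j, E i (y j) = if i = j then 1 else 0) (D : Derivation k K K) :
    D = ∑ j, D (y j) • E j := by
  refine der_ext y hy fun i => ?_
  have h1 : (∑ j, D (y j) • E j) (y i) = ∑ j, (D (y j) • E j) (y i) :=
    congrFun (map_sum Derivation.coeFnAddMonoidHom (fun j => D (y j) • E j) Finset.univ |>.trans
      rfl) (y i) |>.trans (Finset.sum_apply _ _ _)
  rw [h1]
  simp only [Derivation.smul_apply, hE, smul_eq_mul, mul_ite, mul_one, mul_zero]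
  simp

/-- forms in coordinates -/
theorem form_coord {k K : Type} [Field k] [CharZero k] [Field K] [Algebra k K] {n : ℕ}
    {y : Fin n → K} (hy : IsTranscendenceBasis k y) {E : Fin n → Derivation k K K}
    (hE : ∀ i j, E i (y j) = if i = j then 1 else 0) {ω : (Fin n → Derivation k K K) → K}
    (hω : ∀ (A : Matrix (Fin n) (Fin n) K) (D : Fin n → Derivation k K K),
      ω (fun i => ∑ j, A i j • D j) = A.det ^ 1 * ω D) (D : Fin n → Derivation k K K) :
    ω D = (Matrix.of fun i j => D i (y j)).det * ω E := by
  have h1 : D = fun i => ∑ j, (Matrix.of fun i j => D i (y j)) i j • E j := by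
    funext i
    exact der_expand hy hE (D i)
  conv_lhs => rw [h1]
  rw [hω, pow_one]

/-- a derivation with prescribed values on an algebraically independent family -/
theorem exists_der_indep {k K : Type} [Field k] [CharZero k] [Field K] [Algebra k K] {n : ℕ}
    {y : Fin n → K} (hy : AlgebraicIndependent k y) (i : Fin n) :
    ∃ D : Derivation k K K, ∀ j, D (y j) = if i = j then 1 else 0 := by
  classical
  obtain ⟨t, ht1, ht2⟩ := exists_isTranscendenceBasis_superset (R := k) (A := K)
    (s := Set.range y) hy.coe_range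
  obtain ⟨D, hD⟩ := exists_der _ ht2 fun b => if (b : K) = y i then 1 else 0
  refine ⟨D, fun j => ?_⟩
  have h1 := hD ⟨y j, ht1 ⟨j, rfl⟩⟩
  rw [h1]
  have hinj := hy.injective
  by_cases h : i = j
  · subst h; simp
  · rw [if_neg h, if_neg]
    intro h2
    exact h (hinj h2).symm

/-- a complement of a nonzero row -/
theorem rows_ext {R : Type} [Field R] {n N : ℕ} (m : Fin (N + 1) → Fin n → R)
    (hcol : ∀ c : Fin n → R, (∀ k, ∑ j, c j * m k j = 0) → c = 0) (h0 : m 0 ≠ 0) :
    ∃ (k : Fin n → Fin (N + 1)) (i0 : Fin n), k i0 = 0 ∧ (∀ i, i ≠ i0 → k i ≠ 0) ∧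
      (Matrix.of fun i j => m (k i) j).det ≠ 0 := by
  classical
  have hs : LinearIndepOn R m {(0 : Fin (N + 1))} := LinearIndepOn.singleton h0
  obtain ⟨b, -, hb0, hspan, hb⟩ := exists_linearIndepOn_extension hs (Set.subset_univ _)
  have htop : Submodule.span R (m '' b) = ⊤ := by
    by_contra hne
    obtain ⟨f, hf0, hf⟩ := Submodule.exists_le_ker_of_lt_top _ (lt_top_iff_ne_top.2 hne)
    have hrow : ∀ k, f (m k) = 0 := fun k =>
      hf (hspan (Set.mem_image_of_mem m (Set.mem_univ k)))
    have hfx : ∀ v : Fin n → R, f v = ∑ j, f (Pi.single j 1) * v j := by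
      intro v
      conv_lhs => rw [LinearMap.pi_apply_eq_sum_univ f v]
      refine Finset.sum_congr rfl fun j _ => ?_
      rw [smul_eq_mul, mul_comm]
      congr 2
      funext i
      simp [Pi.single_apply, eq_comm]
    have hc := hcol (fun j => f (Pi.single j 1)) fun k => by
      rw [← hfx, hrow]
    apply hf0
    refine LinearMap.ext fun v => ?_
    rw [hfx]
    have : ∀ j, f (Pi.single j 1) = 0 := fun j => congrFun hc j
    simp [this]
  have hfin : b.Finite := Set.toFinite b
  have : Fintype b := hfin.fintype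
  let B : Module.Basis b R (Fin n → R) := Module.Basis.mk hb (by
    rw [← htop, Set.image_eq_range])
  have hcard : Fintype.card b = n := by
    have h1 := Module.finrank_eq_card_basis B
    rw [Module.finrank_fin_fun] at h1
    exact h1.symm
  let e : Fin n ≃ b := (Fintype.equivFinOfCardEq hcard).symm
  have hz : (0 : Fin (N + 1)) ∈ b := hb0 (Set.mem_singleton _)
  refine ⟨fun i => (e i : Fin (N + 1)), e.symm ⟨0, hz⟩, by simp, ?_, ?_⟩
  · intro i hi h
    apply hi
    rw [Equiv.eq_symm_apply]
    exact Subtype.ext h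
  · have h1 : LinearIndependent R (Matrix.of fun i j => m (e i : Fin (N + 1)) j).row := by
      have h2 : LinearIndependent R (fun i : b => m i) := hb
      exact h2.comp e e.injective
    rw [Matrix.linearIndependent_rows_iff_isUnit, Matrix.isUnit_iff_isUnit_det] at h1
    exact h1.ne_zero

/-- the inversion of the variable -/
theorem exists_inv (M : Type) [Field M] : ∃ s : RatFunc M →ₐ[M] RatFunc M,
    (∀ A : M[X], s (algebraMap M[X] (RatFunc M) A) = aeval (RatFunc.X : RatFunc M)⁻¹ A) ∧
    ∀ x, s (s x) = x := by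
  have htr : Transcendental M (RatFunc.X : RatFunc M)⁻¹ := fun h =>
    RatFunc.transcendental_X (IsAlgebraic.inv_iff.1 h)
  have hinj : Function.Injective (aeval (RatFunc.X : RatFunc M)⁻¹ : M[X] →ₐ[M] RatFunc M) :=
    transcendental_iff_injective.1 htr
  let s : RatFunc M →ₐ[M] RatFunc M := RatFunc.liftAlgHom (aeval (RatFunc.X : RatFunc M)⁻¹)
    (nonZeroDivisors_le_comap_nonZeroDivisors_of_injective _ hinj)
  have h1 : ∀ A : M[X], s (algebraMap M[X] (RatFunc M) A) =
      aeval (RatFunc.X : RatFunc M)⁻¹ A := by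
    intro A
    have := RatFunc.liftAlgHom_apply_div (aeval (RatFunc.X : RatFunc M)⁻¹)
      (nonZeroDivisors_le_comap_nonZeroDivisors_of_injective _ hinj) A 1
    simpa using this
  have hX : s RatFunc.X = (RatFunc.X : RatFunc M)⁻¹ := by
    have := h1 X
    rw [RatFunc.algebraMap_X, aeval_X] at this
    exact this
  have h2 : ∀ A : M[X], s (s (algebraMap M[X] (RatFunc M) A)) =
      algebraMap M[X] (RatFunc M) A := by
    intro A
    rw [h1, ← aeval_algHom_apply, map_inv₀, hX, inv_inv]
    have : (aeval (RatFunc.X : RatFunc M) : M[X] →ₐ[M] RatFunc M) =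
        Algebra.algHom M M[X] (RatFunc M) := by
      ext
      simp [Algebra.algHom]
    rw [this]
    rfl
  refine ⟨s, h1, fun x => ?_⟩
  have hx := RatFunc.num_div_denom x
  rw [← hx, map_div₀, map_div₀, h2, h2]

/-- an element of the rational functions with zero derivative -/
theorem const_of_der {M : Type} [Field M] [Algebra ℂ M]
    {δ : Derivation ℂ (RatFunc M) (RatFunc M)} (hX : δ RatFunc.X = 1)
    (hM : ∀ l : M, δ (algebraMap M (RatFunc M) l) = 0) (g : RatFunc M) (hg : δ g = 0) :
    ∃ c : M, g = algebraMap M (RatFunc M) c := by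
  have : CharZero M := charZero_of_injective_algebraMap (algebraMap ℂ M).injective
  have hC : ∀ l : M, algebraMap M[X] (RatFunc M) (C l) = algebraMap M (RatFunc M) l := by
    intro l
    rw [IsScalarTower.algebraMap_apply M M[X] (RatFunc M), Polynomial.algebraMap_eq]
  have hpoly : ∀ A : M[X], δ (algebraMap M[X] (RatFunc M) A) =
      algebraMap M[X] (RatFunc M) (derivative A) := by
    intro A
    induction A using Polynomial.induction_on' with
    | add p q hp hq => rw [map_add, map_add, hp, hq, derivative_add, map_add]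
    | monomial k l =>
      rw [← C_mul_X_pow_eq_monomial, map_mul, map_pow, RatFunc.algebraMap_X, hC, δ.leibniz,
        δ.leibniz_pow, hM, hX, derivative_C_mul_X_pow, map_mul, map_pow, RatFunc.algebraMap_X, hC]
      simp
      ring
  have hd0 : algebraMap M[X] (RatFunc M) g.denom ≠ 0 := RatFunc.algebraMap_ne_zero g.denom_ne_zero
  have hgd : g * algebraMap M[X] (RatFunc M) g.denom = algebraMap M[X] (RatFunc M) g.num := by
    conv_lhs => rw [← RatFunc.num_div_denom g]
    rw [RatFunc.num_div_denom]
    rw [eq_comm, ← div_eq_iff hd0]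
    exact RatFunc.num_div_denom g
  have h1 : g * algebraMap M[X] (RatFunc M) (derivative g.denom) =
      algebraMap M[X] (RatFunc M) (derivative g.num) := by
    have h2 := congrArg δ hgd
    rw [δ.leibniz, hg, smul_zero, add_zero, hpoly, hpoly, smul_eq_mul] at h2
    exact h2
  have h3 : g.num * derivative g.denom = derivative g.num * g.denom := by
    apply RatFunc.algebraMap_injective M
    rw [map_mul, map_mul, ← h1, ← hgd]
    ring
  have h4 : g.denom ∣ derivative g.denom := by
    have h5 : g.denom ∣ g.num * derivative g.denom := by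
      rw [h3]
      exact dvd_mul_left _ _
    exact (RatFunc.isCoprime_num_denom g).symm.dvd_of_dvd_mul_left h5
  have h6 := dvd_derivative_iff.1 h4
  have h7 : g.denom = 1 := by
    have h8 := Polynomial.derivative_eq_zero.1 h6
    exact (Polynomial.Monic.natDegree_eq_zero (RatFunc.monic_denom g)).1 h8
  rw [h7, map_one, mul_one] at hgd
  rw [h6, map_zero, mul_zero] at h1
  have h9 : derivative g.num = 0 := by
    apply RatFunc.algebraMap_injective M
    rw [← h1, map_zero]
  obtain ⟨c, hc⟩ : ∃ c, g.num = C c := ⟨_, eq_C_of_derivative_eq_zero h9⟩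
  exact ⟨c, by rw [hgd, hc, hC]⟩

end Pool.Agent.Y944.NT
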