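import Pool.Agent.Y184.NT.StD
import Pool.Agent.Y184.NT.Sp
import Pool.Agent.Y888.NT.FinDer
import Pool.Agent.Y944.NT.NLa

/-!
# Project NT (helper184): varieties with a regular canonical form are not covered by rational curves
-/

set_option autoImplicit false
set_option linter.unusedSectionVars false

open FF Polynomial Pool.Agent.W602.GT Pool.Agent.Y184.NT

namespace Pool.Agent.Y944.NT

section

variable {K M : Type} [Field K] [Field M] [Algebra ℂ K] [Algebra ℂ M]
  [Algebra.EssFiniteType ℂ K] {n N : ℕ}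

theorem io_C (l : M) : io (C l) = algebraMap M (RatFunc M) l := by
  rw [io, IsScalarTower.algebraMap_apply M M[X] (RatFunc M), Polynomial.algebraMap_eq]

theorem trdeg_rat {t : Fin (N + 1) → RatFunc M} (ht : IsTranscendenceBasis ℂ t) :
    Algebra.trdeg ℂ (RatFunc M) = ((N + 1 : ℕ) : Cardinal) := by
  rw [← ht.cardinalMk_eq_trdeg]
  simp

/-- the places of the polynomials are divisorial -/
theorem div_w0 {z : Fin N → M} (hz : IsTranscendenceBasis ℂ z) {g : M[X]} (hg : Irreducible g)
    {w0 : Place ℂ (RatFunc M)} (h : IsW0 g w0) : Divisorial (N + 1) w0 := by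
  refine ⟨fun i => algebraMap M (RatFunc M) (z i), fun F hF => ?_⟩
  have h1 : MvPolynomial.aeval (fun i => algebraMap M (RatFunc M) (z i)) F =
      algebraMap M (RatFunc M) (MvPolynomial.aeval z F) :=
    MvPolynomial.aeval_algebraMap_apply (RatFunc M) z F
  have h2 : MvPolynomial.aeval z F ≠ 0 := fun h0 => hF ((injective_iff_map_eq_zero _).1 hz.1 F h0)
  change MvPolynomial.aeval (fun i => algebraMap M (RatFunc M) (z i)) F ≠ 0 ∧
    w0.ord (MvPolynomial.aeval (fun i => algebraMap M (RatFunc M) (z i)) F) = 0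
  rw [h1, ← io_C]
  have h3 : (C (MvPolynomial.aeval z F) : M[X]) ≠ 0 := C_ne_zero.2 h2
  refine ⟨io_ne h3, h.unit _ h3 fun hd => ?_⟩
  exact hg.not_isUnit (isUnit_of_dvd_unit hd (isUnit_C.2 (isUnit_iff_ne_zero.2 h2)))

/-- a rational function which is regular at the places of all polynomials is a polynomial -/
theorem poly_of_reg (hW0 : StW0) (G : RatFunc M)
    (h : ∀ (g : M[X]) (w0 : Place ℂ (RatFunc M)), Irreducible g → IsW0 g w0 → w0.Reg G) :
    ∃ P : M[X], G = io P := by
  by_cases hG : G = 0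
  · exact ⟨0, by rw [hG, io, map_zero]⟩
  have hd0 : io G.denom ≠ 0 := io_ne G.denom_ne_zero
  have hgd : G * io G.denom = io G.num := by
    rw [eq_comm, ← div_eq_iff hd0]
    exact RatFunc.num_div_denom G
  by_cases hu : IsUnit G.denom
  · have h7 : G.denom = 1 := (RatFunc.monic_denom G).eq_one_of_isUnit hu
    rw [h7, io, map_one, mul_one] at hgd
    exact ⟨_, hgd⟩
  · exfalso
    obtain ⟨g, hg, q, hq⟩ := WfDvdMonoid.exists_irreducible_factor hu G.denom_ne_zero
    obtain ⟨w0, hw⟩ := exists_w0 hW0 hg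
    have h1 := (w0.reg_iff hG).1 (h g w0 hg hw)
    have hn0 : G.num ≠ 0 := by simpa using hG
    have h2 : ¬ g ∣ G.num := by
      intro h3
      have h4 : g ∣ G.denom := ⟨q, hq⟩
      exact hg.not_isUnit ((RatFunc.isCoprime_num_denom G).isUnit_of_dvd' h3 h4)
    have h3 := hw.unit _ hn0 h2
    have hq0 : q ≠ 0 := by
      rintro rfl
      rw [mul_zero] at hq
      exact G.denom_ne_zero hq
    have h4 : w0.ord (io G.denom) = 1 + w0.ord (io q) := by
      rw [hq, io, map_mul, w0.ord_mul (io_ne hg.ne_zero) (io_ne hq0), hw.one]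
    have h5 := (w0.reg_iff (io_ne hq0)).1 (hw.reg q)
    have h6 := w0.ord_mul hG hd0
    rw [hgd, h3, h4] at h6
    omega

/-- the determinant is a polynomial -/
theorem polyG (hPull : StPull) (hW0 : StW0) (hn : Algebra.trdeg ℂ K = n) {z : Fin N → M}
    (hz : IsTranscendenceBasis ℂ z) {t : Fin (N + 1) → RatFunc M} (ht : IsTranscendenceBasis ℂ t)
    {ω : (Fin n → Derivation ℂ K K) → K}
    (hω : IsPluri 1 ω) (hreg : ∀ P : Place ℂ K, Divisorial n P → RegAt P ω) {y : Fin n → K}
    (hy : IsTranscendenceBasis ℂ y) {E : Fin n → Derivation ℂ K K}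
    (hE : ∀ i j, E i (y j) = if i = j then 1 else 0) (φ : K →ₐ[ℂ] RatFunc M)
    (D : Fin n → Derivation ℂ (RatFunc M) (RatFunc M))
    (hD : ∀ i (A : M[X]), ∃ A' : M[X], D i (io A) = io A') :
    ∃ P : M[X], (Matrix.of fun i j => D i (φ (y j))).det * φ (ω E) = io P := by
  let _ : Algebra K (RatFunc M) := φ.toRingHom.toAlgebra
  have : IsScalarTower ℂ K (RatFunc M) := IsScalarTower.of_algebraMap_eq fun c =>
    (φ.commutes c).symm
  refine poly_of_reg hW0 _ fun g w0 hg hw => ?_
  exact hPull K (RatFunc M) n (N + 1) hn (trdeg_rat ht) y hy E hE ω hω hreg w0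
    (div_w0 hz hg hw) D fun i => hw.derReg (hD i)

/-- conjugation of a vector field by an involution -/
noncomputable def cj {R : Type} [Field R] [Algebra ℂ R] (s : R →ₐ[ℂ] R) (hs : ∀ x, s (s x) = x)
    (D : Derivation ℂ R R) : Derivation ℂ R R :=
  Derivation.mk' (s.toLinearMap ∘ₗ D.toLinearMap ∘ₗ s.toLinearMap) (by
    intro a b
    change s (D (s (a * b))) = a • s (D (s b)) + b • s (D (s a))
    rw [map_mul, D.leibniz, smul_eq_mul, smul_eq_mul, smul_eq_mul, smul_eq_mul, map_add, map_mul,
      map_mul, hs, hs])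

theorem cj_apply {R : Type} [Field R] [Algebra ℂ R] (s : R →ₐ[ℂ] R) (hs : ∀ x, s (s x) = x)
    (D : Derivation ℂ R R) (x : R) : cj s hs D x = s (D (s x)) := rfl

end

theorem stNLG (hPull : StPull) (hW0 : StW0) (hDer : StDer) : StNLG := by
  classical
  intro K M _ _ _ _ _ n N hn z hz ω hω hreg hω0 φ f
  by_contra hcon
  push Not at hcon
  -- the vector fields
  choose Ez hEz using fun i : Fin N => exists_der z hz fun j => if i = j then 1 else 0
  obtain ⟨ht, δ, hδ0X, hδ0M, hδX, hδM⟩ := hDer M N z hz Ez hEz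
  set t : Fin (N + 1) → RatFunc M :=
    Fin.cons RatFunc.X fun i => algebraMap M (RatFunc M) (z i) with htdef
  have hdual : ∀ i j, δ i (t j) = if i = j then 1 else 0 := by
    intro i j
    refine Fin.cases ?_ (fun i => ?_) i
    · refine Fin.cases ?_ (fun j => ?_) j
      · simp [htdef, hδ0X]
      · simp only [htdef, Fin.cons_succ, hδ0M]
        rw [if_neg (Fin.succ_ne_zero j).symm]
    · refine Fin.cases ?_ (fun j => ?_) j
      · simp only [htdef, Fin.cons_zero, hδX]
        rw [if_neg (Fin.succ_ne_zero i)]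
      · simp only [htdef, Fin.cons_succ, hδM, hEz]
        by_cases h : i = j
        · subst h; simp
        · rw [if_neg h, if_neg (fun h' => h (Fin.succ_injective _ h')), map_zero]
  have hδpoly : ∀ k (A : M[X]), ∃ A' : M[X], δ k (io A) = io A' := by
    intro k A
    refine Fin.cases ?_ (fun k => ?_) k
    · exact der_poly (fun l => ⟨0, by rw [hδ0M, io, map_zero]⟩) ⟨1, by rw [hδ0X, io, map_one]⟩ A
    · exact der_poly (fun l => ⟨C (Ez k l), by rw [hδM, io_C]⟩) ⟨0, by rw [hδX, io, map_zero]⟩ A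
  obtain ⟨y, E, hy, hE⟩ := exists_crd hn
  -- the rows
  set m : Fin (N + 1) → Fin n → RatFunc M := fun k j => δ k (φ (y j)) with hm
  have hφy : AlgebraicIndependent ℂ (fun j => φ (y j)) := hy.1.map' (f := φ) φ.toRingHom.injective
  have hcol : ∀ c : Fin n → RatFunc M, (∀ k, ∑ j, c j * m k j = 0) → c = 0 := by
    intro c hc
    funext i
    obtain ⟨D, hD⟩ := exists_der_indep hφy i
    have h1 := der_expand ht hdual D
    have h2 : ∀ x, D x = ∑ k, D (t k) * δ k x := by
      intro x
      conv_lhs => rw [h1]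
      have h3 : (∑ k, D (t k) • δ k) x = ∑ k, (D (t k) • δ k) x :=
        congrFun (map_sum Derivation.coeFnAddMonoidHom (fun k => D (t k) • δ k) Finset.univ |>.trans
          rfl) x |>.trans (Finset.sum_apply _ _ _)
      rw [h3]
      rfl
    have h4 : ∑ j, c j * D (φ (y j)) = 0 := by
      simp only [h2 (φ (y _)), Finset.mul_sum]
      rw [Finset.sum_comm]
      refine Finset.sum_eq_zero fun k _ => ?_
      have h5 := hc k
      calc ∑ j, c j * (D (t k) * δ k (φ (y j))) = D (t k) * ∑ j, c j * m k j := by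
            rw [Finset.mul_sum]
            exact Finset.sum_congr rfl fun j _ => by rw [hm]; ring
        _ = 0 := by rw [h5, mul_zero]
    simp only [hD, mul_ite, mul_one, mul_zero, Finset.sum_ite_eq, Finset.mem_univ, if_true] at h4
    exact h4
  have h0 : m 0 ≠ 0 := by
    intro h0
    let _ : Algebra K (RatFunc M) := φ.toRingHom.toAlgebra
    have : IsScalarTower ℂ K (RatFunc M) := IsScalarTower.of_algebraMap_eq fun c =>
      (φ.commutes c).symm
    have h1 : (δ 0).compAlgebraMap K = 0 := Pool.Agent.Y888.NT.der_ext' y hy fun j => by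
      change δ 0 (φ (y j)) = 0
      exact congrFun h0 j
    have h2 : δ 0 (φ f) = 0 := DFunLike.congr_fun h1 f
    obtain ⟨c, hc⟩ := const_of_der hδ0X hδ0M (φ f) h2
    exact hcon c hc
  obtain ⟨k, i0, hk0, hk1, hdet⟩ := rows_ext m hcol h0
  -- the involution
  obtain ⟨s', hs1, hs2⟩ := exists_inv M
  set s : RatFunc M →ₐ[ℂ] RatFunc M := s'.restrictScalars ℂ with hs
  have hss : ∀ x, s (s x) = x := hs2
  have hsX : s RatFunc.X = (RatFunc.X : RatFunc M)⁻¹ := by
    have := hs1 X
    rw [RatFunc.algebraMap_X, aeval_X] at this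
    exact this
  have hsM : ∀ l : M, s (algebraMap M (RatFunc M) l) = algebraMap M (RatFunc M) l := fun l =>
    s'.commutes l
  have hX0 : (RatFunc.X : RatFunc M) ≠ 0 := RatFunc.X_ne_zero
  have hcj : ∀ (i : Fin n) (x : RatFunc M), δ (k i) (s x) =
      (if i = i0 then -(RatFunc.X⁻¹ ^ 2) else 1) * s (δ (k i) x) := by
    intro i x
    have h1 : cj s hss (δ (k i)) = (if i = i0 then -(RatFunc.X ^ 2) else 1 : RatFunc M) •
        δ (k i) := by
      refine der_ext t ht fun j => ?_
      rw [cj_apply, Derivation.smul_apply, smul_eq_mul]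
      by_cases hi : i = i0
      · rw [if_pos hi, hi, hk0]
        refine Fin.cases ?_ (fun j => ?_) j
        · simp only [htdef, Fin.cons_zero, hsX]
          rw [Derivation.leibniz_inv, hδ0X]
          simp [hsX]
        · simp only [htdef, Fin.cons_succ, hsM, hδ0M, map_zero, mul_zero]
      · rw [if_neg hi, one_mul]
        obtain ⟨k', hk'⟩ := Fin.exists_succ_eq.2 (hk1 i hi)
        rw [← hk']
        refine Fin.cases ?_ (fun j => ?_) j
        · simp only [htdef, Fin.cons_zero, hsX]
          rw [Derivation.leibniz_inv, hδX]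
          simp
        · simp only [htdef, Fin.cons_succ, hsM, hδM]
    have h2 := DFunLike.congr_fun h1 x
    rw [cj_apply, Derivation.smul_apply, smul_eq_mul] at h2
    have h3 := congrArg s h2
    rw [hss, map_mul] at h3
    rw [h3]
    congr 1
    split_ifs
    · rw [map_neg, map_pow, hsX]
    · rw [map_one]
  -- the two polynomials
  obtain ⟨P, hP⟩ := polyG hPull hW0 hn hz ht hω hreg hy hE φ (fun i => δ (k i))
    (fun i A => hδpoly (k i) A)
  obtain ⟨P', hP'⟩ := polyG hPull hW0 hn hz ht hω hreg hy hE (s.comp φ) (fun i => δ (k i))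
    (fun i A => hδpoly (k i) A)
  have hP0 : P ≠ 0 := by
    rintro rfl
    rw [io, map_zero] at hP
    rcases mul_eq_zero.1 hP with h1 | h1
    · exact hdet h1
    · obtain ⟨D, hD⟩ := hω0
      apply hD
      have h2 : ω E = 0 := φ.toRingHom.injective (by
        change φ (ω E) = φ 0
        rw [h1, map_zero])
      rw [form_coord hy hE hω D, h2, mul_zero]
  have hdets : (Matrix.of fun i j => δ (k i) ((s.comp φ) (y j))).det =
      -(RatFunc.X⁻¹ ^ 2) * s (Matrix.of fun i j => δ (k i) (φ (y j))).det := by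
    have h1 : (Matrix.of fun i j => δ (k i) ((s.comp φ) (y j))) = Matrix.of fun i j =>
        (if i = i0 then -(RatFunc.X⁻¹ ^ 2) else 1 : RatFunc M) *
          ((Matrix.of fun i j => δ (k i) (φ (y j))).map s) i j := by
      ext i j
      exact hcj i (φ (y j))
    rw [h1, Matrix.det_mul_column]
    congr 1
    · rw [Finset.prod_eq_single i0]
      · rw [if_pos rfl]
      · intro i _ hi
        rw [if_neg hi]
      · intro h
        exact absurd (Finset.mem_univ _) h
    · exact (s.map_det _).symm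
  rw [hdets, AlgHom.comp_apply, mul_assoc, ← map_mul, hP] at hP'
  have hsP : s (io P) = io P.reverse * (RatFunc.X⁻¹) ^ P.natDegree := by
    have h1 : s (io P) = aeval (RatFunc.X : RatFunc M)⁻¹ P := hs1 P
    let _ : Invertible (RatFunc.X : RatFunc M)⁻¹ :=
      ⟨RatFunc.X, mul_inv_cancel₀ hX0, inv_mul_cancel₀ hX0⟩
    have h2 := eval₂_reverse_mul_pow (algebraMap M (RatFunc M)) (RatFunc.X : RatFunc M)⁻¹ P
    have h3 : ⅟((RatFunc.X : RatFunc M)⁻¹) = RatFunc.X := rfl
    rw [h3] at h2
    rw [h1, aeval_def, ← h2]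
    congr 1
    have h4 : (aeval (RatFunc.X : RatFunc M) : M[X] →ₐ[M] RatFunc M) =
        Algebra.algHom M M[X] (RatFunc M) := by
      ext
      simp [Algebra.algHom]
    exact DFunLike.congr_fun h4 P.reverse
  rw [hsP] at hP'
  have h5 : io (P' * X ^ (P.natDegree + 2)) = io (-P.reverse) := by
    have hXi : io (X : M[X]) = RatFunc.X := RatFunc.algebraMap_X
    have e1 : io (P' * X ^ (P.natDegree + 2)) = io P' * RatFunc.X ^ (P.natDegree + 2) := by
      rw [io, map_mul, map_pow, ← io, ← io, hXi]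
    have e2 : io (-P.reverse) = -io P.reverse := by rw [io, map_neg]
    have e3 : (RatFunc.X : RatFunc M)⁻¹ ^ 2 * (RatFunc.X⁻¹) ^ P.natDegree *
        RatFunc.X ^ (P.natDegree + 2) = 1 := by
      rw [← pow_add, add_comm 2, ← mul_pow, inv_mul_cancel₀ hX0, one_pow]
    rw [e1, e2, ← hP']
    linear_combination (-(io P.reverse)) * e3
  have h6 := io_inj h5
  have h7 := congrArg (fun q => coeff q 0) h6
  simp only [coeff_neg, coeff_zero_reverse] at h7
  rw [pow_succ, ← mul_assoc, coeff_mul_X_zero] at h7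
  exact hP0 (leadingCoeff_eq_zero.1 (neg_eq_zero.1 h7.symm))

end Pool.Agent.Y944.NT
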