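import Pool.Agent.Y184.NT.StD
import Pool.Agent.Y721.NT.Vert

/-!
Places over an arbitrary variety with a regular form are trivial on the base
(project NT, helper184).
-/

set_option autoImplicit false

open FF Polynomial Pool.Agent.W602.GT

namespace Pool.Agent.Y944.NT

open Pool.Agent.Y184.NT Pool.Agent.Y721.NT

/-- a map of fields from the values on generators -/
theorem exists_hom {K Ω : Type} [Field K] [Algebra ℂ K] [Field Ω] [Algebra ℂ Ω] {N : ℕ}
    {x : Fin N → K} (hx : IntermediateField.adjoin ℂ (Set.range x) = ⊤) (v : Fin N → Ω)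
    (h0 : ∀ G : MvPolynomial (Fin N) ℂ, MvPolynomial.aeval x G = 0 → MvPolynomial.aeval v G = 0)
    (h1 : ∀ G : MvPolynomial (Fin N) ℂ, MvPolynomial.aeval x G ≠ 0 →
      MvPolynomial.aeval v G ≠ 0) : ∃ φ : K →ₐ[ℂ] Ω, ∀ j, φ (x j) = v j := by
  let f : MvPolynomial (Fin N) ℂ →ₐ[ℂ] K := MvPolynomial.aeval x
  let g : MvPolynomial (Fin N) ℂ →ₐ[ℂ] Ω := MvPolynomial.aeval v
  let g'' : f.range →ₐ[ℂ] Ω := AlgHom.liftOfSurjective f.rangeRestrict
    (AlgHom.rangeRestrict_surjective f) g fun a ha => h0 a (congrArg Subtype.val ha)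
  have hg : ∀ G : MvPolynomial (Fin N) ℂ, g'' (f.rangeRestrict G) = g G := fun G =>
    AlgHom.liftOfSurjective_apply _ _ _ _ G
  have hinj : Function.Injective g'' := by
    rw [injective_iff_map_eq_zero]
    intro a ha
    obtain ⟨G, rfl⟩ := AlgHom.rangeRestrict_surjective f a
    rw [hg] at ha
    apply Subtype.ext
    change f G = 0
    by_contra h3
    exact h1 G h3 ha
  have hfr : IsFractionRing f.range K := by
    refine IsFractionRing.of_field _ _ fun z => ?_
    have hz : z ∈ IntermediateField.adjoin ℂ (Set.range x) := by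
      rw [hx]
      trivial
    rw [IntermediateField.mem_adjoin_range_iff] at hz
    obtain ⟨p, q, hpq⟩ := hz
    exact ⟨f.rangeRestrict p, f.rangeRestrict q, hpq⟩
  refine ⟨IsFractionRing.liftAlgHom (A := f.range) (K := K) hinj, fun j => ?_⟩
  have h4 : x j = algebraMap f.range K (f.rangeRestrict (MvPolynomial.X j)) :=
    (MvPolynomial.aeval_X x j).symm
  rw [h4, IsFractionRing.liftAlgHom_apply, IsFractionRing.lift_algebraMap]
  exact (hg _).trans (MvPolynomial.aeval_X v j)

/-- no maps to fields algebraic over a field of smaller transcendence degree -/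
theorem no_hom {K M Ω : Type} [Field K] [Algebra ℂ K] [Field M] [Algebra ℂ M] [Field Ω]
    [Algebra ℂ Ω] [Algebra M Ω] [IsScalarTower ℂ M Ω] {n N : ℕ}
    (hK : Algebra.trdeg ℂ K = n) (hN : N < n) {z : Fin N → M} (hz : IsTranscendenceBasis ℂ z)
    (φ : K →ₐ[ℂ] Ω) (hφ : ∀ f, IsAlgebraic M (φ f)) : False := by
  obtain ⟨ι, y, hy⟩ := exists_isTranscendenceBasis' ℂ K
  let A := algebraicClosure M Ω
  have hmem : ∀ f, φ f ∈ A := fun f => mem_algebraicClosure_iff.2 (hφ f)
  have hzA : IsTranscendenceBasis ℂ (fun i => algebraMap M A (z i)) :=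
    hz.algebraMap_comp (A := A)
  have h5 : AlgebraicIndependent ℂ (fun i : ι => (⟨φ (y i), hmem (y i)⟩ : A)) := by
    have h8 : AlgebraicIndependent ℂ ((A.restrictScalars ℂ).val ∘
        fun i : ι => (⟨φ (y i), hmem (y i)⟩ : A)) := hy.1.map' φ.injective
    exact AlgebraicIndependent.of_comp (A.restrictScalars ℂ).val h8
  have h6 := hzA.lift_cardinalMk_eq_trdeg
  have h7 := h5.lift_cardinalMk_le_trdeg
  have h9 := hy.cardinalMk_eq_trdeg
  rw [← h6] at h7
  rw [hK] at h9
  simp only [Cardinal.lift_id, h9, Cardinal.mk_fintype, Fintype.card_fin] at h7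
  have : n ≤ N := by exact_mod_cast h7
  omega

/-- the contradiction in the residue field -/
theorem coreG (hNLG : StNLG) {K M Ω : Type} [Field K] [Algebra ℂ K] [Algebra.EssFiniteType ℂ K]
    [Field M] [Algebra ℂ M] [Field Ω] [Algebra ℂ Ω]
    [Algebra M Ω] [IsScalarTower ℂ M Ω] {n N N' : ℕ} (hK : Algebra.trdeg ℂ K = n) (hN : N' < n)
    (z : Fin N' → M) (hz : IsTranscendenceBasis ℂ z) (ω : (Fin n → Derivation ℂ K K) → K)
    (hpl : IsPluri 1 ω) (hreg : ∀ P : Place ℂ K, Divisorial n P → RegAt P ω)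
    (hne : ∃ D, ω D ≠ 0) (x : Fin N → K) (hx : IntermediateField.adjoin ℂ (Set.range x) = ⊤)
    (a b : Fin N → M) (t c : Ω) (u : Fin N → Ω)
    (hu : ∀ j, u j = c * (algebraMap M Ω (a j) + t * algebraMap M Ω (b j)))
    (j0 : Fin N) (hj0 : u j0 = 1)
    (h0 : ∀ G : MvPolynomial (Fin N) ℂ, MvPolynomial.aeval x G = 0 → MvPolynomial.aeval u G = 0)
    (h1 : ∀ G : MvPolynomial (Fin N) ℂ, MvPolynomial.aeval x G ≠ 0 →
      MvPolynomial.aeval u G ≠ 0) : False := by
  set y : Fin N → Ω := fun j => algebraMap M Ω (a j) + t * algebraMap M Ω (b j) with hy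
  have huy : u = fun j => c * y j := funext hu
  have hy0 : c * y j0 = 1 := by rw [← hj0, huy]
  have hyj0 : y j0 ≠ 0 := right_ne_zero_of_mul_eq_one hy0
  have hys : ∀ k, u k = y k / y j0 := by
    intro k
    symm
    rw [div_eq_iff hyj0, huy]
    calc y k = y k * (c * y j0) := by rw [hy0, mul_one]
      _ = c * y k * y j0 := by ring
  by_cases ht : IsAlgebraic M t
  · let A := algebraicClosure M Ω
    have h4 : ∀ k, IsAlgebraic M (y k) := fun k =>
      (isAlgebraic_algebraMap _).add (ht.mul (isAlgebraic_algebraMap _))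
    have hmem : ∀ k, u k ∈ A := by
      intro k
      rw [mem_algebraicClosure_iff, hys, div_eq_mul_inv]
      exact (h4 k).mul (h4 j0).inv
    have hv : ∀ G : MvPolynomial (Fin N) ℂ, ((MvPolynomial.aeval
        (fun k => (⟨u k, hmem k⟩ : A)) G : A) : Ω) = MvPolynomial.aeval u G := by
      intro G
      exact (MvPolynomial.comp_aeval_apply (f := fun k => (⟨u k, hmem k⟩ : A))
        (A.restrictScalars ℂ).val G)
    obtain ⟨φ, -⟩ := exists_hom hx (fun k => (⟨u k, hmem k⟩ : A))
      (fun G hG => Subtype.ext (by rw [hv, h0 G hG]; rfl))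
      (fun G hG h => h1 G hG (by rw [← hv, h]; rfl))
    exact no_hom (M := M) (Ω := A) hK hN hz φ fun f => Algebra.IsAlgebraic.isAlgebraic _
  · have ht' : Function.Injective (Polynomial.aeval t : M[X] →ₐ[M] Ω) :=
      transcendental_iff_injective.1 ht
    let θ : RatFunc M →ₐ[M] Ω := RatFunc.liftAlgHom (Polynomial.aeval t) (by
      intro p hp
      rw [Submonoid.mem_comap, mem_nonZeroDivisors_iff_ne_zero]
      exact fun h => (nonZeroDivisors.ne_zero hp) (ht' (by rw [h, map_zero])))
    have hθX : θ RatFunc.X = t := by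
      change RatFunc.liftAlgHom _ _ RatFunc.X = t
      rw [RatFunc.liftAlgHom_apply, RatFunc.num_X, RatFunc.denom_X, map_one, div_one, aeval_X]
    let θ' : RatFunc M →ₐ[ℂ] Ω := θ.restrictScalars ℂ
    let Y : Fin N → RatFunc M := fun j => algebraMap M (RatFunc M) (a j) +
      RatFunc.X * algebraMap M (RatFunc M) (b j)
    have hY : ∀ j, θ (Y j) = y j := by
      intro j
      rw [map_add, map_mul, hθX, AlgHom.commutes, AlgHom.commutes]
    have hv : ∀ G : MvPolynomial (Fin N) ℂ, θ' (MvPolynomial.aeval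
        (fun k => Y k / Y j0) G) = MvPolynomial.aeval u G := by
      intro G
      have h2 : u = fun k => θ' (Y k / Y j0) := by
        funext k
        change u k = θ (Y k / Y j0)
        rw [map_div₀, hY, hY, hys]
      rw [h2]
      exact MvPolynomial.comp_aeval_apply (f := fun k => Y k / Y j0) θ' G
    obtain ⟨φ, -⟩ := exists_hom hx (fun k => Y k / Y j0)
      (fun G hG => (map_eq_zero_iff θ' θ'.injective).1 ((hv G).trans (h0 G hG)))
      (fun G hG h => h1 G hG (by rw [← hv, h, map_zero]))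
    refine no_hom (M := M) (Ω := RatFunc M) hK hN hz φ fun f => ?_
    obtain ⟨c, hc⟩ := hNLG K M n N' hK z hz ω hpl hreg hne φ f
    rw [hc]
    exact isAlgebraic_algebraMap _

/-- the places above are trivial on the base, for an arbitrary variety -/
theorem stVertG (hNLG : StNLG) : StVertG := by
  classical
  intro L K R _ _ _ _ _ _ _ _ _ n N hn htr htrK ω hpl hreg hne x hx w a b hab u hu j0 hj0 α β
    huab hG0 hG1 l0 hl0
  by_contra hord
  set M := resField (L := L) w with hM
  -- few algebraically independent residues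
  have hfew : ∀ m : Fin n → M, ¬ AlgebraicIndependent ℂ m := by
    intro m hm
    apply hord
    refine trivial_of_indep w htr (fun i => ((m i : M) : w.RF)) (fun i => (m i).2) ?_ l0
    exact hm.map' (f := M.val) M.val.injective
  obtain ⟨N', z, hN, hz⟩ := exists_small hfew
  -- the minors
  set μ : Fin N → Fin N → L := fun i j => a i * b j - a j * b i with hμ
  have hex : ∃ p : Fin N × Fin N, μ p.1 p.2 ≠ 0 := by
    by_contra hcon
    push Not at hcon
    have h1 : ∀ i j, a i * b j = a j * b i := fun i j => sub_eq_zero.1 (hcon (i, j))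
    rw [LinearIndependent.pair_iff] at hab
    by_cases ha : ∃ i, a i ≠ 0
    · obtain ⟨i, hi⟩ := ha
      have h2 := hab (b i) (-(a i)) (by
        funext j
        simp only [Pi.add_apply, Pi.smul_apply, smul_eq_mul, Pi.zero_apply]
        linear_combination -(h1 i j))
      exact hi (neg_eq_zero.1 h2.2)
    · push Not at ha
      have h2 := hab 1 0 (by
        funext j
        simp [ha])
      exact one_ne_zero h2.1
  obtain ⟨⟨i, j⟩, hij, hmin⟩ : ∃ p : Fin N × Fin N, μ p.1 p.2 ≠ 0 ∧
      ∀ p' : Fin N × Fin N, μ p'.1 p'.2 ≠ 0 →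
        w.ord (algebraMap L R (μ p.1 p.2)) ≤ w.ord (algebraMap L R (μ p'.1 p'.2)) := by
    obtain ⟨p0, hp0⟩ := hex
    obtain ⟨p, hp, hpm⟩ := Finset.exists_min_image
      (Finset.univ.filter fun p : Fin N × Fin N => μ p.1 p.2 ≠ 0)
      (fun p => w.ord (algebraMap L R (μ p.1 p.2))) ⟨p0, by simp [hp0]⟩
    refine ⟨p, (Finset.mem_filter.1 hp).2, fun p' hp' => hpm p' ?_⟩
    simp [hp']
  simp only at hij hmin
  have hij' : algebraMap L R (μ i j) ≠ 0 := (_root_.map_ne_zero _).2 hij
  have hregm : ∀ p' : Fin N × Fin N, w.Reg (algebraMap L R (μ p'.1 p'.2 / μ i j)) := by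
    intro p'
    by_cases h0 : μ p'.1 p'.2 = 0
    · rw [h0, zero_div, map_zero]
      exact w.reg_zero
    · right
      rw [map_div₀, w.ord_div ((_root_.map_ne_zero _).2 h0) hij']
      have := hmin p' h0
      omega
  set a' : Fin N → L := fun k => μ k j / μ i j with ha'
  set b' : Fin N → L := fun k => μ i k / μ i j with hb'
  have hra : ∀ k, w.Reg (algebraMap L R (a' k)) := fun k => hregm (k, j)
  have hrb : ∀ k, w.Reg (algebraMap L R (b' k)) := fun k => hregm (i, k)
  have huu : ∀ k, u k = u i * algebraMap L R (a' k) + u j * algebraMap L R (b' k) := by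
    intro k
    apply mul_right_cancel₀ hij'
    rw [add_mul, mul_assoc, mul_assoc, ← map_mul, ← map_mul]
    have h1 : a' k * μ i j = μ k j := div_mul_cancel₀ _ hij
    have h2 : b' k * μ i j = μ i k := div_mul_cancel₀ _ hij
    rw [h1, h2, huab k, huab i, huab j]
    simp only [hμ, map_sub, map_mul]
    ring
  -- the residues
  set ub : Fin N → w.RF := fun k => w.red (u k) with hub
  let A : Fin N → M := fun k => ⟨w.red (algebraMap L R (a' k)), a' k, hra k, rfl⟩
  let B : Fin N → M := fun k => ⟨w.red (algebraMap L R (b' k)), b' k, hrb k, rfl⟩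
  have hubk : ∀ k, ub k = ub i * algebraMap M w.RF (A k) + ub j * algebraMap M w.RF (B k) := by
    intro k
    change w.red (u k) = w.red (u i) * w.red (algebraMap L R (a' k)) +
      w.red (u j) * w.red (algebraMap L R (b' k))
    rw [← w.red_mul (hu i) (hra k), ← w.red_mul (hu j) (hrb k),
      ← w.red_add (w.reg_mul (hu i) (hra k)) (w.reg_mul (hu j) (hrb k)), ← huu k]
  have hub0 : ub j0 = 1 := by
    change w.red (u j0) = 1
    rw [hj0, w.red_one]
  have hr0 : ∀ G : MvPolynomial (Fin N) ℂ, MvPolynomial.aeval x G = 0 →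
      MvPolynomial.aeval ub G = 0 := by
    intro G hG
    obtain ⟨h1, h2⟩ := red_aeval w u hu G
    change MvPolynomial.aeval (fun i => w.red (u i)) G = 0
    rw [← h2, w.red_eq_zero_iff h1]
    rcases hG0 G hG with h | h
    · exact Or.inl h
    · exact Or.inr (by omega)
  have hr1 : ∀ G : MvPolynomial (Fin N) ℂ, MvPolynomial.aeval x G ≠ 0 →
      MvPolynomial.aeval ub G ≠ 0 := by
    intro G hG h3
    obtain ⟨h1, h2⟩ := hG1 G hG
    have h4 := (red_aeval w u hu G).2
    rw [show MvPolynomial.aeval (fun i => w.red (u i)) G = 0 from h3] at h4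
    exact w.red_ne_zero h1 h2 h4
  by_cases hi0 : ub i = 0
  · refine coreG hNLG htrK hN z hz ω hpl hreg hne x hx B A 0 (ub j) ub (fun k => ?_) j0 hub0
      hr0 hr1
    rw [hubk k, hi0]
    ring
  · refine coreG hNLG htrK hN z hz ω hpl hreg hne x hx A B (ub j / ub i) (ub i) ub
      (fun k => ?_) j0 hub0 hr0 hr1
    rw [hubk k]
    field_simp

end Pool.Agent.Y944.NT
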