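import Pool.Agent.Y944.NT.ResA

/-!
# Project NT: numbers with a small radical in a residue class
-/

set_option autoImplicit false

namespace Pool.Agent.Y944.NT

open Finset Pool.Agent.H785R2.ABC

/-- numbers all of whose small classes are small have a small radical -/
lemma rad_small (A : ℝ) (hA : 1 ≤ A) (K : ℕ) (hK : 8 * A ≤ K) (Z : ℝ) (hZ : 1 ≤ Z) (b : ℕ)
    (hb : 1 ≤ b) (hbA : (b : ℝ) ≤ Z ^ A)
    (h : ∀ j : Fin K, (rd K b {j.castSucc} : ℝ) ≤ Z ^ (1 / (8 * ((K : ℝ) + 1)))) :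
    (rad b : ℝ) ≤ Z ^ (1 - 1 / (8 * ((K : ℝ) + 1))) := by
  set κ : ℝ := 1 / (8 * ((K : ℝ) + 1)) with hκ
  have hZ0 : 0 < Z := by linarith
  have hK0 : (0 : ℝ) ≤ K := by positivity
  have hK1 : (0 : ℝ) < (K : ℝ) + 1 := by positivity
  have h1 : (rad b : ℝ) = (∏ j : Fin K, (rd K b {j.castSucc} : ℝ)) * (rd K b {Fin.last K} : ℝ) := by
    rw [← basics.rd_univ K b, basics.rd_prod K b univ, Fin.prod_univ_castSucc]
    push_cast
    rfl
  have h2 : (∏ j : Fin K, (rd K b {j.castSucc} : ℝ)) ≤ Z ^ (κ * K) := by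
    calc (∏ j : Fin K, (rd K b {j.castSucc} : ℝ)) ≤ ∏ _j : Fin K, Z ^ κ :=
          Finset.prod_le_prod (fun _ _ => by positivity) (fun j _ => h j)
      _ = Z ^ (κ * K) := by
          rw [Finset.prod_const, Finset.card_univ, Fintype.card_fin, Real.rpow_mul hZ0.le,
            Real.rpow_natCast]
  have h3 : (rd K b {Fin.last K} : ℝ) ≤ Z ^ (A / ((K : ℝ) + 1)) := by
    have h4 : (rd K b {Fin.last K} : ℝ) ^ (K + 1) ≤ Z ^ A := by
      refine le_trans ?_ hbA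
      have h5 := (basics.part_last K b).trans
        (Nat.le_of_dvd hb (basics.part_dvd K b {Fin.last K} hb))
      exact_mod_cast h5
    have h6 : (rd K b {Fin.last K} : ℝ) =
        ((rd K b {Fin.last K} : ℝ) ^ (K + 1)) ^ ((1 : ℝ) / ((K : ℝ) + 1)) := by
      rw [← Real.rpow_natCast, ← Real.rpow_mul (by positivity)]
      push_cast
      rw [mul_one_div_cancel hK1.ne', Real.rpow_one]
    rw [h6]
    calc ((rd K b {Fin.last K} : ℝ) ^ (K + 1)) ^ ((1 : ℝ) / ((K : ℝ) + 1))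
        ≤ (Z ^ A) ^ ((1 : ℝ) / ((K : ℝ) + 1)) :=
          Real.rpow_le_rpow (by positivity) h4 (by positivity)
      _ = Z ^ (A / ((K : ℝ) + 1)) := by
          rw [← Real.rpow_mul hZ0.le]
          congr 1
          ring
  rw [h1]
  calc (∏ j : Fin K, (rd K b {j.castSucc} : ℝ)) * (rd K b {Fin.last K} : ℝ)
      ≤ Z ^ (κ * K) * Z ^ (A / ((K : ℝ) + 1)) := by gcongr
    _ = Z ^ (κ * K + A / ((K : ℝ) + 1)) := (Real.rpow_add hZ0 _ _).symm
    _ ≤ Z ^ (1 - κ) := by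
        refine Real.rpow_le_rpow_of_exponent_le hZ ?_
        have e1 : κ * K + κ = 1 / 8 := by
          rw [hκ]; field_simp
        have e2 : A / ((K : ℝ) + 1) ≤ 1 / 8 := by
          rw [div_le_iff₀ hK1]
          linarith
        linarith

/-- the number of dyadic ranges -/
lemma log_bound (ε : ℝ) (hε : 0 < ε) : ∃ D : ℝ, 0 < D ∧ ∀ Z : ℝ, 1 ≤ Z →
    ((Nat.log 2 ⌊Z⌋₊ + 1 : ℕ) : ℝ) ≤ D * Z ^ ε := by
  refine ⟨2 / ε + 1, by positivity, fun Z hZ => ?_⟩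
  have hZ0 : 0 < Z := by linarith
  have h1 : (1 : ℝ) ≤ Z ^ ε := Real.one_le_rpow hZ hε.le
  have hfl : 1 ≤ ⌊Z⌋₊ := Nat.le_floor (by exact_mod_cast hZ)
  have h2 : ((Nat.log 2 ⌊Z⌋₊ : ℕ) : ℝ) * Real.log 2 ≤ Real.log Z := by
    have h3 : (2 : ℝ) ^ (Nat.log 2 ⌊Z⌋₊) ≤ Z := by
      have h4 := Nat.pow_log_le_self 2 (show ⌊Z⌋₊ ≠ 0 by omega)
      calc (2 : ℝ) ^ (Nat.log 2 ⌊Z⌋₊) ≤ (⌊Z⌋₊ : ℝ) := by exact_mod_cast h4
        _ ≤ Z := Nat.floor_le hZ0.le
    have h5 := Real.log_le_log (by positivity) h3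
    rwa [Real.log_pow] at h5
  have h6 : Real.log Z ≤ Z ^ ε / ε := Real.log_le_rpow_div hZ0.le hε
  have h7 : (1 / 2 : ℝ) ≤ Real.log 2 := by
    have := Real.log_two_gt_d9
    linarith
  have h8 : ((Nat.log 2 ⌊Z⌋₊ : ℕ) : ℝ) * (1 / 2) ≤ Z ^ ε / ε := by
    refine le_trans ?_ (h2.trans h6)
    exact mul_le_mul_of_nonneg_left h7 (by positivity)
  push_cast
  have h9 : 2 / ε * Z ^ ε = 2 * (Z ^ ε / ε) := by ring
  nlinarith

theorem res : Pool.Agent.Y594.NT.S_RES := by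
  classical
  intro A hA
  set K : ℕ := ⌈8 * A⌉₊ with hKdef
  have hK : 8 * A ≤ K := Nat.le_ceil _
  set κ : ℝ := 1 / (8 * ((K : ℝ) + 1)) with hκ
  have hK1 : (0 : ℝ) < (K : ℝ) + 1 := by positivity
  have hκ0 : 0 < κ := by positivity
  have hκ1 : κ ≤ 1 := by
    rw [hκ, div_le_one (by positivity)]
    have : (0 : ℝ) ≤ K := by positivity
    linarith
  have hA0 : 0 < A := by linarith
  refine ⟨κ, hκ0, hκ1, fun ε hε => ?_⟩
  have hA3 : StmtA4 := stmtA4_of (stmtA3_of stmtA2)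
  have hBB : StmtB := stmtB_of stmtA1
  obtain ⟨D4, hD4, h4⟩ := hA3 (ε / A) (by positivity)
  obtain ⟨D5, hD5, h5⟩ := cellY hA3 hBB K (ε / (2 * A)) (by positivity)
  obtain ⟨D6, hD6, h6⟩ := log_bound (ε / 2) (by positivity)
  refine ⟨D4 + K * D6 * (D5 * 2), by positivity, fun Z hZ g hg hgA c B hB => ?_⟩
  have hZ0 : 0 < Z := by linarith
  have hg0 : (0 : ℝ) < g := by exact_mod_cast hg
  have hZA : (1 : ℝ) ≤ Z ^ A := Real.one_le_rpow hZ hA0.le
  set X : ℕ := ⌊Z ^ A⌋₊ with hX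
  have hX1 : 1 ≤ X := Nat.le_floor (by exact_mod_cast hZA)
  have hXA : (X : ℝ) ≤ Z ^ A := Nat.floor_le (by positivity)
  have hgX : g ≤ X := Nat.le_floor hgA
  have hX4 : (X : ℝ) ^ (ε / A) ≤ Z ^ ε := by
    calc (X : ℝ) ^ (ε / A) ≤ (Z ^ A) ^ (ε / A) :=
          Real.rpow_le_rpow (by positivity) hXA (by positivity)
      _ = Z ^ ε := by
          rw [← Real.rpow_mul hZ0.le]
          congr 1
          field_simp
  have hX5 : (X : ℝ) ^ (ε / (2 * A)) ≤ Z ^ (ε / 2) := by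
    calc (X : ℝ) ^ (ε / (2 * A)) ≤ (Z ^ A) ^ (ε / (2 * A)) :=
          Real.rpow_le_rpow (by positivity) hXA (by positivity)
      _ = Z ^ (ε / 2) := by
          rw [← Real.rpow_mul hZ0.le]
          congr 1
          field_simp
  set L : ℕ := Nat.log 2 ⌊Z⌋₊ with hL
  -- the pieces
  set B0 : Finset ℕ := B.filter fun b => ∀ j : Fin K, (rd K b {j.castSucc} : ℝ) ≤ Z ^ κ with hB0
  set Bj : Fin K → ℕ → Finset ℕ := fun j i => B.filter fun b =>
    Z ^ κ < (rd K b {j.castSucc} : ℝ) ∧ Nat.log 2 (rd K b {j.castSucc}) = i with hBj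
  have hcov : B ⊆ B0 ∪ (univ : Finset (Fin K)).biUnion fun j => (range (L + 1)).biUnion (Bj j) := by
    intro b hb
    rw [Finset.mem_union]
    by_cases hh : ∀ j : Fin K, (rd K b {j.castSucc} : ℝ) ≤ Z ^ κ
    · left
      rw [hB0, Finset.mem_filter]
      exact ⟨hb, hh⟩
    · right
      push Not at hh
      obtain ⟨j, hj⟩ := hh
      rw [Finset.mem_biUnion]
      refine ⟨j, Finset.mem_univ _, ?_⟩
      rw [Finset.mem_biUnion]
      refine ⟨Nat.log 2 (rd K b {j.castSucc}), ?_, ?_⟩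
      · rw [Finset.mem_range]
        refine Nat.lt_succ_of_le (Nat.log_mono_right ?_)
        refine Nat.le_floor ?_
        refine le_trans ?_ (hB b hb).2.2.1
        have e := basics.rd_mul K b {j.castSucc}
        have e2 := basics.rd_pos K b {j.castSucc}ᶜ
        have e3 : rd K b {j.castSucc} ≤ rad b := by
          rw [← e]
          exact Nat.le_mul_of_pos_right _ e2
        exact_mod_cast e3
      · rw [hBj]
        simp only [Finset.mem_filter]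
        exact ⟨hb, hj, trivial⟩
  have hcard : (B.card : ℝ) ≤ (B0.card : ℝ) + ∑ j : Fin K, ∑ i ∈ range (L + 1), ((Bj j i).card : ℝ) := by
    have k1 := (Finset.card_le_card hcov).trans (Finset.card_union_le _ _)
    have k2 : ((univ : Finset (Fin K)).biUnion fun j => (range (L + 1)).biUnion (Bj j)).card ≤
        ∑ j : Fin K, ∑ i ∈ range (L + 1), (Bj j i).card :=
      Finset.card_biUnion_le.trans (Finset.sum_le_sum fun j _ => Finset.card_biUnion_le)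
    exact_mod_cast k1.trans (Nat.add_le_add_left k2 _)
  -- the first piece
  have hb0 : (B0.card : ℝ) ≤ D4 * Z ^ ε * Z ^ (1 - κ) := by
    have k1 : B0 ⊆ (Icc 1 X).filter fun d => (rad d : ℝ) ≤ Z ^ (1 - κ) := by
      intro b hb
      rw [hB0, Finset.mem_filter] at hb
      obtain ⟨l1, l2, -, -, -⟩ := hB b hb.1
      rw [Finset.mem_filter, Finset.mem_Icc]
      exact ⟨⟨l1, Nat.le_floor l2⟩, rad_small A hA K hK Z hZ b l1 l2 hb.2⟩
    have k2 : (B0.card : ℝ) ≤ D4 * (X : ℝ) ^ (ε / A) * Z ^ (1 - κ) :=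
      le_trans (by exact_mod_cast Finset.card_le_card k1) (h4 X hX1 _ (by positivity))
    refine k2.trans ?_
    gcongr
  -- the other pieces
  have hbj : ∀ (j : Fin K) (i : ℕ), ((Bj j i).card : ℝ) ≤
      D5 * Z ^ (ε / 2) * (2 * (Z ^ (1 - κ) + Z / g)) := by
    intro j i
    rcases (Bj j i).eq_empty_or_nonempty with he | ⟨b0, hb0'⟩
    · rw [he, Finset.card_empty, Nat.cast_zero]
      positivity
    · have hmem : ∀ b ∈ Bj j i, b ∈ B ∧ Z ^ κ < (rd K b {j.castSucc} : ℝ) ∧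
          2 ^ i ≤ rd K b {j.castSucc} ∧ rd K b {j.castSucc} < 2 ^ (i + 1) := by
        intro b hb
        rw [hBj] at hb
        simp only [Finset.mem_filter] at hb
        obtain ⟨l1, l2, l3⟩ := hb
        have l4 := basics.rd_pos K b {j.castSucc}
        refine ⟨l1, l2, ?_, ?_⟩
        · rw [← l3]
          exact Nat.pow_log_le_self 2 (by omega)
        · rw [← l3]
          exact Nat.lt_pow_succ_log_self (by norm_num) _
      have k1 := h5 X g hX1 hg hgX Z hZ c j.castSucc (by simp) i (Bj j i) (by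
        intro b hb
        obtain ⟨l1, l2, l3, l4⟩ := hmem b hb
        obtain ⟨m1, m2, m3, m4, m5⟩ := hB b l1
        exact ⟨m1, Nat.le_floor m2, m3, m4, m5, l3, l4⟩)
      obtain ⟨-, l2, -, l4⟩ := hmem b0 hb0'
      have k2 : Z / 2 ^ i ≤ 2 * Z ^ (1 - κ) := by
        have k3 : Z ^ κ ≤ 2 * 2 ^ i := by
          have k4 : (rd K b0 {j.castSucc} : ℝ) ≤ 2 ^ (i + 1) := by exact_mod_cast l4.le
          rw [pow_succ] at k4
          linarith
        rw [div_le_iff₀ (by positivity)]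
        have k5 : Z = Z ^ (1 - κ) * Z ^ κ := by
          rw [← Real.rpow_add hZ0]
          simp
        calc Z = Z ^ (1 - κ) * Z ^ κ := k5
          _ ≤ Z ^ (1 - κ) * (2 * 2 ^ i) := by gcongr
          _ = 2 * Z ^ (1 - κ) * 2 ^ i := by ring
      refine k1.trans ?_
      have k6 : Z / 2 ^ i + 2 * Z / g ≤ 2 * (Z ^ (1 - κ) + Z / g) := by
        have : 2 * Z / (g : ℝ) = 2 * (Z / g) := by ring
        rw [this]
        linarith
      gcongr
  have hsum : ∑ j : Fin K, ∑ i ∈ range (L + 1), ((Bj j i).card : ℝ) ≤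
      K * (((L + 1 : ℕ) : ℝ) * (D5 * Z ^ (ε / 2) * (2 * (Z ^ (1 - κ) + Z / g)))) := by
    have k1 : ∀ j : Fin K, ∑ i ∈ range (L + 1), ((Bj j i).card : ℝ) ≤
        ((L + 1 : ℕ) : ℝ) * (D5 * Z ^ (ε / 2) * (2 * (Z ^ (1 - κ) + Z / g))) := by
      intro j
      refine (Finset.sum_le_card_nsmul _ _ _ fun i _ => hbj j i).trans ?_
      rw [nsmul_eq_mul, Finset.card_range]
    refine (Finset.sum_le_card_nsmul _ _ _ fun j _ => k1 j).trans ?_
    rw [nsmul_eq_mul, Finset.card_univ, Fintype.card_fin]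
  have hZZ : Z ^ ε = Z ^ (ε / 2) * Z ^ (ε / 2) := by
    rw [← Real.rpow_add hZ0]
    congr 1
    ring
  have hW : 0 ≤ Z ^ (1 - κ) + Z / g := by positivity
  have hlast : (K : ℝ) * (((L + 1 : ℕ) : ℝ) * (D5 * Z ^ (ε / 2) * (2 * (Z ^ (1 - κ) + Z / g)))) ≤
      K * D6 * (D5 * 2) * Z ^ ε * (Z ^ (1 - κ) + Z / g) := by
    have k1 := h6 Z hZ
    calc (K : ℝ) * (((L + 1 : ℕ) : ℝ) * (D5 * Z ^ (ε / 2) * (2 * (Z ^ (1 - κ) + Z / g))))
        ≤ K * ((D6 * Z ^ (ε / 2)) * (D5 * Z ^ (ε / 2) * (2 * (Z ^ (1 - κ) + Z / g)))) := by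
          gcongr
      _ = K * D6 * (D5 * 2) * Z ^ ε * (Z ^ (1 - κ) + Z / g) := by
          rw [hZZ]; ring
  have hfirst : D4 * Z ^ ε * Z ^ (1 - κ) ≤ D4 * Z ^ ε * (Z ^ (1 - κ) + Z / g) := by
    have : 0 ≤ Z / g := by positivity
    gcongr
    linarith
  calc (B.card : ℝ) ≤ D4 * Z ^ ε * (Z ^ (1 - κ) + Z / g) +
        K * D6 * (D5 * 2) * Z ^ ε * (Z ^ (1 - κ) + Z / g) := by linarith
    _ = (D4 + K * D6 * (D5 * 2)) * Z ^ ε * (Z ^ (1 - κ) + Z / g) := by ring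

end Pool.Agent.Y944.NT
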