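import Pool.Agent.Y594.NT.Stm
import Pool.Agent.H785R2.ABC.Basics
import Pool.Agent.H785R2.ABC.A345
import Pool.Agent.H785R2.ABC.A12
import Pool.Agent.H785R2.ABC.B

/-!
# Project NT: numbers with a small radical in a residue class, part A
-/

set_option autoImplicit false

namespace Pool.Agent.Y944.NT

open Finset Pool.Agent.H785R2.ABC

/-- the numbers with a given cofactor -/
theorem fixY (hB : StmtB) (K : ℕ) (ε : ℝ) (hε : 0 < ε) : ∃ D : ℝ, 0 < D ∧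
    ∀ g : ℕ, 1 ≤ g → ∀ (c : ZMod g) (j : Fin (K + 1)), (j : ℕ) < K → ∀ (y N : ℕ) (B : Finset ℕ),
      (∀ b ∈ B, 1 ≤ b ∧ Nat.Coprime b g ∧ (b : ZMod g) = c ∧ part K b {j}ᶜ = y ∧
        rd K b {j} < N) →
      (B.card : ℝ) ≤ D * (g : ℝ) ^ ε * (1 + (N : ℝ) / g) := by
  classical
  obtain ⟨D, hD, h⟩ := hB K ε hε
  refine ⟨D, hD, fun g hg c j hj y N B hBB => ?_⟩
  have hg0 : (0 : ℝ) < g := by exact_mod_cast hg
  rcases B.eq_empty_or_nonempty with rfl | ⟨b0, hb0⟩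
  · simp only [Finset.card_empty, Nat.cast_zero]
    positivity
  haveI : NeZero g := ⟨by omega⟩
  obtain ⟨h1, h2, h3, h4, -⟩ := hBB b0 hb0
  have hfac : ∀ b ∈ B, b = rd K b {j} ^ ((j : ℕ) + 1) * y := by
    intro b hb
    obtain ⟨k1, k2, k3, k4, -⟩ := hBB b hb
    have e := basics.part_mul K b {j} k1
    rw [basics.part_single K b j hj, k4] at e
    exact e.symm
  have hycop : Nat.Coprime y g := by
    refine Nat.Coprime.coprime_dvd_left ?_ h2
    exact ⟨rd K b0 {j} ^ ((j : ℕ) + 1), by rw [mul_comm]; exact hfac b0 hb0⟩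
  have hxcop : ∀ b ∈ B, Nat.Coprime (rd K b {j}) g := by
    intro b hb
    have e := hfac b hb
    refine Nat.Coprime.coprime_dvd_left ?_ (hBB b hb).2.1
    exact ⟨rd K b {j} ^ (j : ℕ) * y, by
      conv_lhs => rw [e]
      rw [pow_succ]; ring⟩
  set uc : (ZMod g)ˣ := ZMod.unitOfCoprime b0 h2 with huc
  set uy : (ZMod g)ˣ := ZMod.unitOfCoprime y hycop with huy
  have huc' : (uc : ZMod g) = c := by rw [huc, ZMod.coe_unitOfCoprime, h3]
  set u : (ZMod g)ˣ := uc * uy⁻¹ with hu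
  set S : Finset (ZMod g) := (Set.toFinite {x : (ZMod g)ˣ | x ^ ((j : ℕ) + 1) = u}).toFinset.image
    Units.val with hS
  have hScard : (S.card : ℝ) ≤ D * (g : ℝ) ^ ε := by
    refine le_trans ?_ (h ((j : ℕ) + 1) (by omega) (by omega) g hg u)
    rw [Set.ncard_eq_toFinset_card _ (Set.toFinite _)]
    exact_mod_cast Finset.card_image_le
  have hmem : ∀ b ∈ B, ((rd K b {j} : ℕ) : ZMod g) ∈ S := by
    intro b hb
    rw [hS, Finset.mem_image]
    refine ⟨ZMod.unitOfCoprime _ (hxcop b hb), ?_, ZMod.coe_unitOfCoprime _ _⟩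
    rw [Set.Finite.mem_toFinset, Set.mem_setOf_eq, hu, eq_mul_inv_iff_mul_eq]
    apply Units.ext
    rw [Units.val_mul, Units.val_pow_eq_pow_val, ZMod.coe_unitOfCoprime, huc', huy,
      ZMod.coe_unitOfCoprime, ← (hBB b hb).2.2.1]
    conv_rhs => rw [hfac b hb]
    push_cast
    rfl
  have hcard : B.card ≤ (S ×ˢ range (N / g + 1)).card := by
    refine Finset.card_le_card_of_injOn (fun b => (((rd K b {j} : ℕ) : ZMod g), rd K b {j} / g))
      ?_ ?_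
    · intro b hb
      rw [Finset.mem_coe] at hb
      rw [Finset.mem_coe, Finset.mem_product]
      refine ⟨hmem b hb, ?_⟩
      rw [Finset.mem_range]
      exact Nat.lt_succ_of_le (Nat.div_le_div_right (c := g) (hBB b hb).2.2.2.2.le)
    · intro b hb b' hb' hbb
      rw [Finset.mem_coe] at hb hb'
      simp only [Prod.mk.injEq] at hbb
      obtain ⟨e1, e2⟩ := hbb
      rw [ZMod.natCast_eq_natCast_iff'] at e1
      have e3 : rd K b {j} = rd K b' {j} := by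
        rw [← Nat.mod_add_div (rd K b {j}) g, ← Nat.mod_add_div (rd K b' {j}) g, e1, e2]
      rw [hfac b hb, hfac b' hb', e3]
  rw [Finset.card_product, Finset.card_range] at hcard
  have h5 : ((N / g + 1 : ℕ) : ℝ) ≤ 1 + (N : ℝ) / g := by
    push_cast
    have := @Nat.cast_div_le ℝ _ _ _ N g
    linarith
  calc (B.card : ℝ) ≤ (S.card : ℝ) * ((N / g + 1 : ℕ) : ℝ) := by exact_mod_cast hcard
    _ ≤ D * (g : ℝ) ^ ε * (1 + (N : ℝ) / g) := by
        refine mul_le_mul hScard h5 (by positivity) (by positivity)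

/-- the numbers with a part of given size in a given class -/
theorem cellY (hA4 : StmtA4) (hB : StmtB) (K : ℕ) (ε : ℝ) (hε : 0 < ε) : ∃ D : ℝ, 0 < D ∧
    ∀ X g : ℕ, 1 ≤ X → 1 ≤ g → g ≤ X → ∀ (Z : ℝ), 1 ≤ Z → ∀ (c : ZMod g) (j : Fin (K + 1)),
      (j : ℕ) < K → ∀ (i : ℕ) (B : Finset ℕ),
      (∀ b ∈ B, 1 ≤ b ∧ b ≤ X ∧ (rad b : ℝ) ≤ Z ∧ Nat.Coprime b g ∧ (b : ZMod g) = c ∧
        2 ^ i ≤ rd K b {j} ∧ rd K b {j} < 2 ^ (i + 1)) →
      (B.card : ℝ) ≤ D * (X : ℝ) ^ ε * (Z / 2 ^ i + 2 * Z / g) := by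
  classical
  obtain ⟨D4, hD4, h4⟩ := hA4 (ε / 2) (by positivity)
  obtain ⟨DB, hDB, h⟩ := fixY hB K (ε / 2) (by positivity)
  refine ⟨D4 * DB, by positivity, fun X g hX hg hgX Z hZ c j hj i B hBB => ?_⟩
  have hg0 : (0 : ℝ) < g := by exact_mod_cast hg
  have hX0 : (0 : ℝ) < X := by exact_mod_cast hX
  -- the cofactors
  set Y : Finset ℕ := (Icc 1 X).filter fun d => (rad d : ℝ) ≤ Z / 2 ^ i with hY
  have hYcard : (Y.card : ℝ) ≤ D4 * (X : ℝ) ^ (ε / 2) * (Z / 2 ^ i) := h4 X hX _ (by positivity)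
  have hmaps : ∀ b ∈ B, part K b {j}ᶜ ∈ Y := by
    intro b hb
    obtain ⟨k1, k2, k3, k4, k5, k6, k7⟩ := hBB b hb
    rw [hY, Finset.mem_filter, Finset.mem_Icc]
    refine ⟨⟨basics.part_pos K b _, ?_⟩, ?_⟩
    · exact (Nat.le_of_dvd k1 (basics.part_dvd K b _ k1)).trans k2
    · rw [basics.rad_part K b _ k1, le_div_iff₀ (by positivity)]
      have e := basics.rd_mul K b {j}
      calc (rd K b {j}ᶜ : ℝ) * 2 ^ i ≤ (rd K b {j}ᶜ : ℝ) * (rd K b {j} : ℝ) := by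
            refine mul_le_mul_of_nonneg_left ?_ (by positivity)
            exact_mod_cast k6
        _ = (rad b : ℝ) := by rw [← e]; push_cast; ring
        _ ≤ Z := k3
  have hfib : ∀ y ∈ Y, ((B.filter fun b => part K b {j}ᶜ = y).card : ℝ) ≤
      DB * (X : ℝ) ^ (ε / 2) * (1 + (2 : ℝ) ^ (i + 1) / g) := by
    intro y _
    have h1 := h g hg c j hj y (2 ^ (i + 1)) (B.filter fun b => part K b {j}ᶜ = y) (by
      intro b hb
      rw [Finset.mem_filter] at hb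
      obtain ⟨k1, k2, k3, k4, k5, k6, k7⟩ := hBB b hb.1
      exact ⟨k1, k4, k5, hb.2, k7⟩)
    refine h1.trans ?_
    push_cast
    have h2 : (g : ℝ) ^ (ε / 2) ≤ (X : ℝ) ^ (ε / 2) :=
      Real.rpow_le_rpow hg0.le (by exact_mod_cast hgX) (by positivity)
    gcongr
  have hsum : (B.card : ℝ) ≤ (Y.card : ℝ) * (DB * (X : ℝ) ^ (ε / 2) * (1 + (2 : ℝ) ^ (i + 1) / g)) := by
    rw [Finset.card_eq_sum_card_fiberwise (f := fun b => part K b {j}ᶜ) (s := B) (t := Y) hmaps]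
    push_cast
    refine (Finset.sum_le_card_nsmul Y _ _ hfib).trans ?_
    rw [nsmul_eq_mul]
  have hXX : (X : ℝ) ^ ε = (X : ℝ) ^ (ε / 2) * (X : ℝ) ^ (ε / 2) := by
    rw [← Real.rpow_add hX0]
    congr 1
    ring
  have hpow : (2 : ℝ) ^ (i + 1) = 2 * 2 ^ i := by ring
  calc (B.card : ℝ) ≤ (Y.card : ℝ) * (DB * (X : ℝ) ^ (ε / 2) * (1 + (2 : ℝ) ^ (i + 1) / g)) := hsum
    _ ≤ (D4 * (X : ℝ) ^ (ε / 2) * (Z / 2 ^ i)) *
        (DB * (X : ℝ) ^ (ε / 2) * (1 + (2 : ℝ) ^ (i + 1) / g)) := by gcongr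
    _ = D4 * DB * (X : ℝ) ^ ε * (Z / 2 ^ i + 2 * Z / g) := by
        rw [hXX, hpow]
        field_simp

end Pool.Agent.Y944.NT
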